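import Pool.Agent.H536Z.Plane

/-! MP_e1341d_pr, Q1 is false: on `ℤ²` some length law with infinite mean has a positive critical
intensity. The definitions are in `Pool/Agent/H536Z/PlaneDefs.lean`. -/

set_option autoImplicit false

open scoped ENNReal

namespace Pool.Agent.Results.MP_e1341d_pr.AInfiniteMean

open Pool.Agent.H536Z

theorem result :
    ∃ m : PMF ℕ, m 0 = 0 ∧ ∑' l : ℕ, (l : ℝ≥0∞) * m l = ⊤ ∧ 0 < Plane.vc m :=
  ⟨mm, mm_zero, mm_mean, plane_main⟩

end Pool.Agent.Results.MP_e1341d_pr.AInfiniteMean
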